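import Pool.Agent.TH706.PC.Gen

set_option autoImplicit false
set_option linter.unusedSectionVars false

/-!
# Circuits given by their gates, and the disjunctions of conjunctions of parities in circuits
-/

open Finset

namespace Pool.Agent.TH706.PC

open Pool.Agent.H554R2.Sem
open Pool.Agent.TH706.LS

/-- The record of a gate of a circuit with `M` gates: the truth table and the names of two gates. -/
structure Gate (M : ℕ) where
  /-- the truth table -/
  op : Bool → Bool → Bool
  /-- the name of the first input -/
  fst : Fin M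
  /-- the name of the second input -/
  snd : Fin M

/-- The value of the gate number `i`: the truth table is applied to the values of the two named
gates; an input whose name is not the name of an earlier gate is `false`. -/
def val {M : ℕ} (w : Fin M → Gate M) (i : Fin M) : Bool :=
  (w i).op (if _h : (w i).fst < i then val w (w i).fst else false)
    (if _h : (w i).snd < i then val w (w i).snd else false)
termination_by i

/-- The value of the circuit, that is, of its last gate, is `b`. -/
def HasValue {M : ℕ} (w : Fin M → Gate M) (b : Bool) : Prop :=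
  ∃ i : Fin M, (∀ j, j ≤ i) ∧ val w i = b

theorem hasValue_iff {M : ℕ} {w : Fin M → Gate M} {i : Fin M} (hi : ∀ j, j ≤ i) (b : Bool) :
    HasValue w b ↔ val w i = b := by
  constructor
  · rintro ⟨i', h1, h2⟩
    have : i' = i := le_antisymm (hi i') (h1 i)
    rw [← this]; exact h2
  · intro h
    exact ⟨i, hi, h⟩

/-- Enumeration along levels. -/
theorem exists_enum {G : Type} [Fintype G] (lev : G → ℕ) (o : G)
    (ho : ∀ g, g ≠ o → lev g < lev o) {M : ℕ} (hM : Fintype.card G ≤ M) :
    ∃ e : G → Fin M, Function.Injective e ∧ (∀ g h, lev g < lev h → e g < e h) ∧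
      ∀ j, j ≤ e o := by
  classical
  obtain ⟨f⟩ : Nonempty (G ≃ Fin (Fintype.card G)) := ⟨Fintype.equivFin G⟩
  have hinj : Function.Injective (fun g => toLex (lev g, f g) : G → ℕ ×ₗ Fin (Fintype.card G)) := by
    intro g h hgh
    have h1 : (lev g, f g) = (lev h, f h) := toLex.injective hgh
    exact f.injective (Prod.ext_iff.1 h1).2
  let _ : LinearOrder G := LinearOrder.lift' _ hinj
  have hlt : ∀ g h : G, lev g < lev h → g < h := by
    intro g h hgh
    show toLex (lev g, f g) < toLex (lev h, f h)
    exact Prod.Lex.toLex_lt_toLex.2 (Or.inl hgh)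
  obtain ⟨e0⟩ : Nonempty (G ≃o Fin (Fintype.card G)) :=
    ⟨(Fintype.orderIsoFinOfCardEq G rfl).symm⟩
  refine ⟨fun g => ⟨M - Fintype.card G + (e0 g).val, by have := (e0 g).2; omega⟩, ?_, ?_, ?_⟩
  · intro g h hgh
    have h1 : M - Fintype.card G + (e0 g).val = M - Fintype.card G + (e0 h).val :=
      Fin.mk.inj_iff.1 hgh
    exact e0.injective (Fin.ext (by omega))
  · intro g h hgh
    have h1 : e0 g < e0 h := e0.lt_iff_lt.2 (hlt g h hgh)
    rw [Fin.lt_def] at h1 ⊢
    show M - Fintype.card G + (e0 g).val < M - Fintype.card G + (e0 h).val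
    omega
  · intro j
    have hG : 0 < Fintype.card G := Fintype.card_pos_iff.2 ⟨o⟩
    have h2 : (e0 o).val = Fintype.card G - 1 := by
      by_contra hne
      obtain ⟨g, hg⟩ : ∃ g, e0 g = ⟨Fintype.card G - 1, by omega⟩ := e0.surjective _
      have h3 : g ≠ o := by
        rintro rfl
        exact hne (by rw [hg])
      have h4 : e0 g < e0 o := e0.lt_iff_lt.2 (hlt g o (ho g h3))
      rw [hg, Fin.lt_def] at h4
      have h5 := (e0 o).2
      simp only at h4
      omega
    rw [Fin.le_def]
    show j.val ≤ M - Fintype.card G + (e0 o).val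
    have := j.2
    omega

section

variable {G E : Type} {M : ℕ} (e : G → Fin M) (opb : Bool → G → Bool → Bool → Bool) (fa fb : G → G)
  (dep : G → E)

open Classical in
/-- The gates of the circuit. -/
noncomputable def fram [Nonempty G] : Fin M → E × (Bool → Gate M) := fun i =>
  if h : ∃ g, e g = i then
    (dep h.choose, fun b => ⟨opb b h.choose, e (fa h.choose), e (fb h.choose)⟩)
  else (dep (Classical.arbitrary G), fun _ => ⟨fun _ _ => false, i, i⟩)

theorem fram_eq [Nonempty G] (he : Function.Injective e) (x : E → Bool) (g : G) :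
    we (fram e opb fa fb dep) x (e g) = ⟨opb (x (dep g)) g, e (fa g), e (fb g)⟩ := by
  have h : ∃ g', e g' = e g := ⟨g, rfl⟩
  have h1 : h.choose = g := he h.choose_spec
  unfold we fram
  rw [dif_pos h, h1]

theorem val_fram [Nonempty G] (he : Function.Injective e) (lev : G → ℕ)
    (hlev : ∀ g h, lev g < lev h → e g < e h) (x : E → Bool) (v : G → Bool)
    (hv : ∀ g, (∀ p q, opb (x (dep g)) g p q = v g) ∨
      (lev (fa g) < lev g ∧ lev (fb g) < lev g ∧
        opb (x (dep g)) g (v (fa g)) (v (fb g)) = v g)) :
    ∀ (L : ℕ) (g : G), lev g < L → val (we (fram e opb fa fb dep) x) (e g) = v g := by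
  intro L
  induction L with
  | zero => intro g hg; omega
  | succ L ih =>
    intro g hg
    rw [val]
    have h0 := fram_eq e opb fa fb dep he x g
    rw [h0]
    simp only
    rcases hv g with h | ⟨h1, h2, h3⟩
    · exact h _ _
    · rw [dif_pos (hlev _ _ h1), dif_pos (hlev _ _ h2), ih _ (by omega), ih _ (by omega)]
      exact h3

end

section

variable {n K : ℕ} {T J : Type} [Fintype T] [Fintype J] (var : T → J → Fin n) (sg : T → J → Bool)

/-- The gates: inputs; parities; conjunctions; disjunctions; output. -/
abbrev GG (n K : ℕ) (T J : Type) [Fintype T] [Fintype J] : Type :=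
  (Fin n × Fin K) ⊕ (Fin n × Fin (K + 1)) ⊕ (T × Fin (Fintype.card J + 1)) ⊕
    Fin (Fintype.card T + 1) ⊕ Unit

/-- The conjunctions have numbers. -/
noncomputable def eT (T : Type) [Fintype T] : Fin (Fintype.card T) ≃ T := (Fintype.equivFin T).symm

@[match_pattern] abbrev GG.X (e : Fin n × Fin K) : GG n K T J := .inl e
@[match_pattern] abbrev GG.P (j : Fin n) (i : Fin (K + 1)) : GG n K T J := .inr (.inl (j, i))
@[match_pattern] abbrev GG.A (τ : T) (i : Fin (Fintype.card J + 1)) : GG n K T J :=
  .inr (.inr (.inl (τ, i)))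
@[match_pattern] abbrev GG.O (i : Fin (Fintype.card T + 1)) : GG n K T J :=
  .inr (.inr (.inr (.inl i)))
@[match_pattern] abbrev GG.Z : GG n K T J := .inr (.inr (.inr (.inr ())))

/-- Levels. -/
def lv : GG n K T J → ℕ
  | .X _ => 0
  | .P _ i => 1 + i.val
  | .A _ i => K + 2 + i.val
  | .O i => K + 3 + Fintype.card J + i.val
  | .Z => K + 4 + Fintype.card J + Fintype.card T

/-- Truth tables; `c` is the value of the circuit if the disjunction is true. -/
noncomputable def ops (c : Bool) (b : Bool) : GG n K T J → Bool → Bool → Bool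
  | .X _ => fun _ _ => b
  | .P _ i => Fin.cases (fun _ _ => false) (fun _ p q => xor p q) i
  | .A τ i => Fin.cases (fun _ _ => true) (fun i p q => p && (q == sg τ (eT J i))) i
  | .O i => Fin.cases (fun _ _ => false) (fun _ p q => p || q) i
  | .Z => fun p _ => xor p (!c)

/-- First inputs. -/
noncomputable def fst' : GG n K T J → GG n K T J
  | .X e => .X e
  | .P j i => Fin.cases (.P j i) (fun i => .P j i.castSucc) i
  | .A τ i => Fin.cases (.A τ i) (fun i => .A τ i.castSucc) i
  | .O i => Fin.cases (.O i) (fun i => .O i.castSucc) i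
  | .Z => .O (Fin.last _)

/-- Second inputs. -/
noncomputable def snd' : GG n K T J → GG n K T J
  | .X e => .X e
  | .P j i => Fin.cases (.P j i) (fun i => .X (j, i)) i
  | .A τ i => Fin.cases (.A τ i) (fun i => .P (var τ (eT J i)) (Fin.last _)) i
  | .O i => Fin.cases (.O i) (fun i => .A (eT T i) (Fin.last _)) i
  | .Z => .O (Fin.last _)

/-- The bit which the gate depends on. -/
def dp (e0 : Fin n × Fin K) : GG n K T J → Fin n × Fin K
  | .X e => e
  | _ => e0

/-- Partial parities. -/
def pv (x : Fin n × Fin K → Bool) (j : Fin n) : ℕ → Bool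
  | 0 => false
  | i + 1 => xor (pv x j i) (if h : i < K then x (j, ⟨i, h⟩) else false)

theorem pv_eq (x : Fin n × Fin K → Bool) (j : Fin n) (i : ℕ) (hi : i ≤ K) :
    vz (pv x j i) = ∑ u ∈ univ.filter (fun u : Fin K => u.val < i), vz (x (j, u)) := by
  induction i with
  | zero =>
    rw [Finset.sum_eq_zero]
    · rfl
    · intro u hu
      have := (Finset.mem_filter.1 hu).2
      omega
  | succ i ih =>
    have h1 : univ.filter (fun u : Fin K => u.val < i + 1) =
        insert ⟨i, by omega⟩ (univ.filter (fun u : Fin K => u.val < i)) := by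
      ext u
      simp only [Finset.mem_filter, Finset.mem_univ, true_and, Finset.mem_insert, Fin.ext_iff]
      omega
    rw [pv, vz_xor, dif_pos (by omega), h1, Finset.sum_insert (by simp), ih (by omega), add_comm]

theorem pv_last (x : Fin n × Fin K → Bool) (j : Fin n) : pv x j K = px x j := by
  apply vz_inj
  rw [pv_eq x j K le_rfl, vz_px]
  unfold sx
  congr 1
  ext u
  simp

/-- Partial conjunctions. -/
noncomputable def av (z : Fin n → Bool) (τ : T) : ℕ → Bool
  | 0 => true
  | i + 1 => av z τ i &&
      (if h : i < Fintype.card J then z (var τ (eT J ⟨i, h⟩)) == sg τ (eT J ⟨i, h⟩) else true)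

theorem av_eq (z : Fin n → Bool) (τ : T) (i : ℕ) (hi : i ≤ Fintype.card J) :
    av var sg z τ i = true ↔ ∀ u : Fin (Fintype.card J), u.val < i →
      z (var τ (eT J u)) = sg τ (eT J u) := by
  induction i with
  | zero => simp [av]
  | succ i ih =>
    unfold av
    rw [Bool.and_eq_true, ih (by omega), dif_pos (by omega), beq_iff_eq]
    constructor
    · rintro ⟨h1, h2⟩ u hu
      rcases Nat.lt_or_ge u.val i with h | h
      · exact h1 u h
      · have : u = ⟨i, by omega⟩ := Fin.ext (by simp only; omega)
        rw [this]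
        exact h2
    · intro h
      exact ⟨fun u hu => h u (by omega), h ⟨i, by omega⟩ (by simp only; omega)⟩

/-- Partial disjunctions. -/
noncomputable def ov (z : Fin n → Bool) : ℕ → Bool
  | 0 => false
  | i + 1 => ov z i ||
      (if h : i < Fintype.card T then av var sg z (eT T ⟨i, h⟩) (Fintype.card J) else false)

theorem ov_eq (z : Fin n → Bool) (i : ℕ) (hi : i ≤ Fintype.card T) :
    ov var sg z i = true ↔ ∃ u : Fin (Fintype.card T), u.val < i ∧
      av var sg z (eT T u) (Fintype.card J) = true := by
  induction i with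
  | zero => simp [ov]
  | succ i ih =>
    unfold ov
    rw [Bool.or_eq_true, ih (by omega), dif_pos (by omega)]
    constructor
    · rintro (⟨u, h1, h2⟩ | h)
      · exact ⟨u, by omega, h2⟩
      · exact ⟨⟨i, by omega⟩, by simp only; omega, h⟩
    · rintro ⟨u, h1, h2⟩
      rcases Nat.lt_or_ge u.val i with h | h
      · exact Or.inl ⟨u, h, h2⟩
      · have : u = ⟨i, by omega⟩ := Fin.ext (by simp only; omega)
        rw [this] at h2
        exact Or.inr h2

theorem ov_last (z : Fin n → Bool) :
    ov var sg z (Fintype.card T) = true ↔ Dnf var sg z := by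
  rw [ov_eq var sg z _ le_rfl]
  unfold Dnf
  constructor
  · rintro ⟨u, -, h⟩
    rw [av_eq var sg z _ _ le_rfl] at h
    refine ⟨eT T u, fun j => ?_⟩
    have := h ((eT J).symm j) (Fin.is_lt _)
    rw [Equiv.apply_symm_apply] at this
    exact this
  · rintro ⟨τ, h⟩
    refine ⟨(eT T).symm τ, Fin.is_lt _, ?_⟩
    rw [av_eq var sg z _ _ le_rfl]
    intro u _
    rw [Equiv.apply_symm_apply]
    exact h _

/-- The values of the gates. -/
noncomputable def vv (c : Bool) (x : Fin n × Fin K → Bool) : GG n K T J → Bool
  | .X e => x e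
  | .P j i => pv x j i.val
  | .A τ i => av var sg (px x) τ i.val
  | .O i => ov var sg (px x) i.val
  | .Z => xor (ov var sg (px x) (Fintype.card T)) (!c)

theorem vv_ok (c : Bool) (e0 : Fin n × Fin K) (x : Fin n × Fin K → Bool) (g : GG n K T J) :
    (∀ p q, ops sg c (x (dp e0 g)) g p q = vv var sg c x g) ∨
      (lv (fst' g) < lv g ∧ lv (snd' var g) < lv g ∧
        ops sg c (x (dp e0 g)) g (vv var sg c x (fst' g)) (vv var sg c x (snd' var g)) =
          vv var sg c x g) := by
  match g with
  | .X e => exact Or.inl fun _ _ => rfl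
  | .P j i =>
    induction i using Fin.cases with
    | zero => exact Or.inl fun _ _ => rfl
    | succ i =>
      refine Or.inr ⟨?_, ?_, ?_⟩
      · show 1 + i.val < 1 + (i.val + 1)
        omega
      · show 0 < 1 + (i.val + 1)
        omega
      · show xor (pv x j i.val) (x (j, i)) = pv x j (i.val + 1)
        rw [pv, dif_pos i.2]
  | .A τ i =>
    induction i using Fin.cases with
    | zero => exact Or.inl fun _ _ => rfl
    | succ i =>
      refine Or.inr ⟨?_, ?_, ?_⟩
      · show K + 2 + i.val < K + 2 + (i.val + 1)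
        omega
      · show 1 + K < K + 2 + (i.val + 1)
        omega
      · show (av var sg (px x) τ i.val &&
          (pv x (var τ (eT J i)) K == sg τ (eT J i))) = av var sg (px x) τ (i.val + 1)
        rw [av, dif_pos i.2, pv_last]
  | .O i =>
    induction i using Fin.cases with
    | zero => exact Or.inl fun _ _ => rfl
    | succ i =>
      refine Or.inr ⟨?_, ?_, ?_⟩
      · show K + 3 + Fintype.card J + i.val < K + 3 + Fintype.card J + (i.val + 1)
        omega
      · show K + 2 + Fintype.card J < K + 3 + Fintype.card J + (i.val + 1)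
        omega
      · show (ov var sg (px x) i.val || av var sg (px x) (eT T i) (Fintype.card J)) =
          ov var sg (px x) (i.val + 1)
        rw [ov, dif_pos i.2]
  | .Z =>
    refine Or.inr ⟨?_, ?_, rfl⟩
    · show K + 3 + Fintype.card J + Fintype.card T < K + 4 + Fintype.card J + Fintype.card T
      omega
    · show K + 3 + Fintype.card J + Fintype.card T < K + 4 + Fintype.card J + Fintype.card T
      omega

end

theorem compiles_circ (c : Bool) : Compiles (α := Gate) (fun _ w => HasValue w c) 6 := by
  classical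
  intro M n K T J _ _ var sg hn hK hM
  have hcard : Fintype.card (GG n K T J) ≤ M := by
    have h1 : Fintype.card (GG n K T J) = n * K + (n * (K + 1) +
        (Fintype.card T * (Fintype.card J + 1) + ((Fintype.card T + 1) + 1))) := by
      simp only [Fintype.card_sum, Fintype.card_prod, Fintype.card_fin, Fintype.card_unit]
    have h2 : n ≤ n * K := Nat.le_mul_of_pos_right _ hK
    have h3 : n * (K + 1) = n * K + n := by ring
    have h4 : Fintype.card T ≤ Fintype.card T * (Fintype.card J + 1) :=
      Nat.le_mul_of_pos_right _ (Nat.succ_pos _)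
    rw [h1]
    omega
  obtain ⟨e, he1, he2, he3⟩ := exists_enum (G := GG n K T J) lv .Z (by
    intro g hg
    match g with
    | .X _ => show 0 < K + 4 + Fintype.card J + Fintype.card T; omega
    | .P _ i =>
      have := i.2
      show 1 + i.val < K + 4 + Fintype.card J + Fintype.card T
      omega
    | .A _ i =>
      have := i.2
      show K + 2 + i.val < K + 4 + Fintype.card J + Fintype.card T
      omega
    | .O i =>
      have := i.2
      show K + 3 + Fintype.card J + i.val < K + 4 + Fintype.card J + Fintype.card T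
      omega
    | .Z => exact absurd rfl hg) hcard
  have hne : Nonempty (GG n K T J) := ⟨.Z⟩
  obtain ⟨e0, he0⟩ : ∃ e0 : Fin n × Fin K, e0 = (⟨0, hn⟩, ⟨0, hK⟩) := ⟨_, rfl⟩
  refine ⟨fram e (ops sg c) fst' (snd' var) (dp e0), fun x => ?_⟩
  show HasValue (we (fram e (ops sg c) fst' (snd' var) (dp e0)) x) c ↔ Dnf var sg (px x)
  rw [hasValue_iff he3, val_fram e (ops sg c) fst' (snd' var) (dp e0) he1 lv he2 x (vv var sg c x)
    (fun g => vv_ok var sg c e0 x g) _ .Z (Nat.lt_succ_self _)]
  show xor (ov var sg (px x) (Fintype.card T)) (!c) = c ↔ _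
  rw [← ov_last]
  cases ov var sg (px x) (Fintype.card T) <;> cases c <;> simp

/-- The circuit value problem. -/
theorem circ_main (b : Bool) (k : ℕ) : ∃ D : ℕ, 0 < D ∧ ∀ M ≥ D,
    ∀ (I : Type) [Fintype I] [Nonempty I] (P : I → SP (Fin M) (Gate M)),
    (∀ i, Fintype.card (P i).State < 2 ^ (M / D)) →
    (∀ w, ¬ HasValue w b → ∀ i, ¬ (P i).Answers w (k * M) b) →
    ∃ w, HasValue w b ∧
      2 ^ (M / D) * Nat.card {i : I // (P i).Answers w (k * M) b} < Nat.card I := by
  obtain ⟨D, hD, h⟩ := pmain (α := Gate) (fun _ w => HasValue w (!b)) 6 (by norm_num)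
    (compiles_circ (!b)) b k
  refine ⟨D, hD, ?_⟩
  intro M hM I _ _ P hP hf
  have hM0 : 0 < M := by omega
  have hlast : ∀ j : Fin M, j ≤ ⟨M - 1, by omega⟩ := by
    intro j
    rw [Fin.le_def]
    have := j.2
    show j.val ≤ M - 1
    omega
  have hnot : ∀ w : Fin M → Gate M, ¬ HasValue w b ↔ HasValue w (!b) := by
    intro w
    rw [hasValue_iff hlast, hasValue_iff hlast]
    cases val w ⟨M - 1, by omega⟩ <;> cases b <;> simp
  obtain ⟨w, h1, h2⟩ := h M hM I P hP (fun w hw => hf w ((hnot w).2 hw))
  refine ⟨w, ?_, h2⟩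
  by_contra hcon
  exact h1 ((hnot w).1 hcon)

end Pool.Agent.TH706.PC
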