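import Pool.Agent.TH706.PC.Lift
import Pool.Agent.TH706.LS.Sat3

set_option autoImplicit false
set_option linter.unusedSectionVars false

/-!
# The general lower bound for problems that contain disjunctions of constantly many parities

Problems whose instances are words with `M` letters. If an instance with `O (M)` letters can say that
one of `O (n)` conjunctions of a constant number of literals is true, where the literals are
the parities of `n` blocks of `K` bits, and each letter depends on one bit only, for all constants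
`K` with `n K = O (M)`, then programs with a stack and `k M` reads need `2 ^ (M / D)` nodes.
-/

open Finset

namespace Pool.Agent.TH706.PC

open Pool.Agent.H554R2.Sem Pool.Agent.W952.Ap Pool.Agent.H822R5.LN
open Pool.Agent.W952.Mx Pool.Agent.W952.Fr
open Pool.Agent.W896.PD (PP Act)
open Pool.Agent.TH706.LS

section

variable {ι α E : Type} (φ : ι → E × (Bool → α))

/-- The word given by the bits `x`: each letter depends on one bit. -/
def we (x : E → Bool) (i : ι) : α := (φ i).2 (x (φ i).1)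

/-- The actions of the Boolean program; the answer `b` becomes `false`. -/
def ne {S Γ : Type} (b : Bool) (a : SAct ι α S Γ) : Act E Bool S Γ :=
  match a with
  | .read i nxt => .query (φ i).1 (fun c => nxt ((φ i).2 c))
  | .push c q => .push c q
  | .pop nxt => .pop nxt
  | .answer c => .out (xor c b)

/-- The Boolean program. -/
@[reducible] def toE (b : Bool) (P : SP ι α) : PP E Bool where
  State := P.State
  Sym := P.Sym
  start := P.start
  act := fun s => ne φ b (P.act s)

theorem toE_to (b : Bool) (P : SP ι α) (x : E → Bool) {q : P.State} {σ : List P.Sym} {t : ℕ}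
    {c : Bool} (h : P.Runs (we φ x) q σ t c) :
    ∃ l, (toE φ b P).Runs x q σ l (xor c b) ∧ l.length = t := by
  induction h with
  | @answer q σ c h =>
    refine ⟨[], PP.Runs.out ?_, rfl⟩
    show ne φ b (P.act q) = _
    rw [h]; rfl
  | @read q σ i nxt t c h _ ih =>
    obtain ⟨l, h1, h2⟩ := ih
    refine ⟨(φ i).1 :: l, PP.Runs.query (P := toE φ b P)
      (nxt := fun c => nxt ((φ i).2 c)) ?_ h1, by simp [h2]⟩
    show ne φ b (P.act q) = _
    rw [h]; rfl
  | @push q σ c' q' t c h _ ih =>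
    obtain ⟨l, h1, h2⟩ := ih
    refine ⟨l, PP.Runs.push (P := toE φ b P) (a := c') (q' := q') ?_ h1, h2⟩
    show ne φ b (P.act q) = _
    rw [h]; rfl
  | @pop q c' σ nxt t c h _ ih =>
    obtain ⟨l, h1, h2⟩ := ih
    refine ⟨l, PP.Runs.pop (P := toE φ b P) (nxt := nxt) ?_ h1, h2⟩
    show ne φ b (P.act q) = _
    rw [h]; rfl

theorem toE_of (b : Bool) (P : SP ι α) (x : E → Bool) {q : (toE φ b P).State}
    {σ : List (toE φ b P).Sym} {l : List E} {c : Bool} (h : (toE φ b P).Runs x q σ l c) :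
    P.Runs (we φ x) q σ l.length (xor c b) := by
  induction h with
  | @out q σ c h =>
    have h' : ne φ b (P.act q) = .out c := h
    cases hq : P.act q with
    | read i nxt => rw [hq] at h'; cases h'
    | push a q' => rw [hq] at h'; cases h'
    | pop nxt => rw [hq] at h'; cases h'
    | answer b' =>
      rw [hq] at h'
      have h2 : xor b' b = c := by injection h'
      subst h2
      have h3 : xor (xor b' b) b = b' := by cases b' <;> cases b <;> rfl
      rw [h3]
      exact SP.Runs.answer hq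
  | @query q σ i nxt l c h _ ih =>
    have h' : ne φ b (P.act q) = .query i nxt := h
    cases hq : P.act q with
    | read j nxt2 =>
      rw [hq] at h'
      injection h' with h5 h6
      subst h5
      subst h6
      exact SP.Runs.read hq ih
    | push a q' => rw [hq] at h'; cases h'
    | pop nxt' => rw [hq] at h'; cases h'
    | answer b' => rw [hq] at h'; cases h'
  | @push q σ a s' l c h _ ih =>
    have h' : ne φ b (P.act q) = .push a s' := h
    cases hq : P.act q with
    | read j nxt2 => rw [hq] at h'; cases h'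
    | push a' q' =>
      rw [hq] at h'
      injection h' with h5 h6
      subst h5
      subst h6
      exact SP.Runs.push hq ih
    | pop nxt' => rw [hq] at h'; cases h'
    | answer b' => rw [hq] at h'; cases h'
  | @pop q a σ nxt l c h _ ih =>
    have h' : ne φ b (P.act q) = .pop nxt := h
    cases hq : P.act q with
    | read j nxt2 => rw [hq] at h'; cases h'
    | push a' q' => rw [hq] at h'; cases h'
    | pop nxt' =>
      rw [hq] at h'
      injection h' with h5
      subst h5
      exact SP.Runs.pop hq ih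
    | answer b' => rw [hq] at h'; cases h'

/-- The answers of the Boolean program are those of the program. -/
theorem toE_comp (b : Bool) (P : SP ι α) (x : E → Bool) (t : ℕ) :
    (∃ l, (toE φ b P).Comp x l false ∧ l.length ≤ t) ↔ P.Answers (we φ x) t b := by
  constructor
  · rintro ⟨l, h1, h2⟩
    have h3 := toE_of φ b P x h1
    rw [Bool.false_xor] at h3
    exact ⟨l.length, h2, h3⟩
  · rintro ⟨t', h2, h1⟩
    obtain ⟨l, h3, h4⟩ := toE_to φ b P x h1
    rw [Bool.xor_self] at h3
    exact ⟨l, h3, by omega⟩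

end

/-- One of the conjunctions is true. -/
def Dnf {n : ℕ} {T J : Type} (var : T → J → Fin n) (sg : T → J → Bool) (z : Fin n → Bool) : Prop :=
  ∃ τ, ∀ j, z (var τ j) = sg τ j

/-- The forms as a disjunction of conjunctions. -/
theorem forms_dnf {p l m : ℕ} [NeZero m] (x : Pt (p * p * nr 1 m)) :
    (∃ γ : Mu p l × Rest 1 m, Fm γ x ≠ 0) ↔
      Dnf (T := Cf p l × Rest 1 m) (J := Bool × Fin (p * p))
        (fun τ j => ix p 1 m (j.2, if j.1 then mv τ.1.1.1 τ.2 else τ.2))
        (fun τ j => τ.1.1.2 j.1 j.2) x := by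
  constructor
  · rintro ⟨⟨μ, ρ⟩, hγ⟩
    refine ⟨(⟨(μ, fun r t => x (ix p 1 m (t, if r then mv μ ρ else ρ))), hγ⟩, ρ), ?_⟩
    rintro ⟨r, t⟩
    rfl
  · rintro ⟨⟨c, ρ⟩, h⟩
    refine ⟨(c.1.1, ρ), ?_⟩
    have h2 : (fun t => x (ix p 1 m (t, ρ))) = c.1.2 false := by
      funext t
      exact h (false, t)
    have h3 : (fun t => x (ix p 1 m (t, mv c.1.1 ρ))) = c.1.2 true := by
      funext t
      exact h (true, t)
    unfold Fm
    simp only
    rw [h2, h3]
    exact c.2

/-- The problem `Q` can say that a disjunction of conjunctions of parities is true, with not more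
than `c` times as many letters as necessary. -/
def Compiles {α : ℕ → Type} (Q : ∀ M, (Fin M → α M) → Prop) (c : ℕ) : Prop :=
  ∀ (M n K : ℕ) (T J : Type) [Fintype T] [Fintype J] (var : T → J → Fin n) (sg : T → J → Bool),
    0 < n → 0 < K → c * (n * K + Fintype.card T * (Fintype.card J + 1)) ≤ M →
    ∃ φ : Fin M → (Fin n × Fin K) × (Bool → α M), ∀ x, Q M (we φ x) ↔ Dnf var sg (px x)

/-- The lower bound for words with letters. -/
theorem pmain {α : ℕ → Type} (Q : ∀ M, (Fin M → α M) → Prop) (c : ℕ) (hc : 0 < c)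
    (hQ : Compiles Q c) (b : Bool) (k : ℕ) : ∃ D : ℕ, 0 < D ∧ ∀ M ≥ D,
    ∀ (I : Type) [Fintype I] [Nonempty I] (P : I → SP (Fin M) (α M)),
    (∀ i, Fintype.card (P i).State < 2 ^ (M / D)) →
    (∀ w, Q M w → ∀ i, ¬ (P i).Answers w (k * M) b) →
    ∃ w, ¬ Q M w ∧
      2 ^ (M / D) * Nat.card {i : I // (P i).Answers w (k * M) b} < Nat.card I := by
  classical
  obtain ⟨p, l, D0, hp3, -, -, hD0, hcore⟩ := coreM' (2 * (32 * c * k))
  have hp0 : 0 < p := by omega
  obtain ⟨K, hK⟩ : ∃ K, K = nc p l * 3 + 1 := ⟨_, rfl⟩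
  have hK0 : 0 < K := by omega
  obtain ⟨C, hC⟩ : ∃ C, C = 2 * c * K * (p * p) := ⟨_, rfl⟩
  have hC0 : 0 < C := by rw [hC]; positivity
  obtain ⟨D3, hD3, hclk⟩ := Pool.Agent.W902.PDS.clocked_le (32 * c * k * K) (2 * D0) (by omega)
  obtain ⟨m1, hm1⟩ : ∃ c, c = D0 + D3 + 10 := ⟨_, rfl⟩
  obtain ⟨D, hD⟩ : ∃ D, D = C * ((m1 * m1) * (m1 * m1)) + 32 * c * K * (8 * D0) := ⟨_, rfl⟩
  have hcK : 0 < 32 * c * K := by positivity
  refine ⟨D, by rw [hD]; positivity, ?_⟩
  intro M hM I _ _ P hP hP1
  obtain ⟨m, hm2, hm3⟩ := root4 C M hC0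
  have hmm : m1 ≤ m := by
    by_contra h
    have h1 : m + 1 ≤ m1 := by omega
    have h2 : C * (((m + 1) * (m + 1)) * ((m + 1) * (m + 1))) ≤ C * ((m1 * m1) * (m1 * m1)) :=
      Nat.mul_le_mul_left _ (Nat.mul_le_mul (Nat.mul_le_mul h1 h1) (Nat.mul_le_mul h1 h1))
    omega
  have : NeZero m := ⟨by omega⟩
  have hm0 : 0 < m := by omega
  obtain ⟨N', hN'⟩ : ∃ N', N' = p * p * ((m * m) * (m * m)) := ⟨_, rfl⟩
  have hnr : nr 1 m = (m * m) * (m * m) := by
    have h : nr 1 m = (1 * 1) * ((m * m) * (m * m)) := nr_eq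
    rw [h]; ring
  have hNN : p * p * nr 1 m = N' := by rw [hN', hnr]
  have hmN : m ≤ N' := by
    rw [← hNN]
    refine (m_le_nr m).trans ?_
    exact Nat.le_mul_of_pos_left _ (by positivity)
  have hn1 : 2 * c * (N' * K) ≤ M := by
    calc 2 * c * (N' * K) = C * (m * m * (m * m)) := by rw [hC, hN']; ring
      _ ≤ M := hm2
  have hn2 : M ≤ 32 * c * (N' * K) := by
    have h1 : (m + 1) * (m + 1) ≤ 4 * (m * m) := by nlinarith
    calc M ≤ C * (((m + 1) * (m + 1)) * ((m + 1) * (m + 1))) := hm3.le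
      _ ≤ C * ((4 * (m * m)) * (4 * (m * m))) :=
          Nat.mul_le_mul_left _ (Nat.mul_le_mul h1 h1)
      _ = 32 * c * (N' * K) := by rw [hC, hN']; ring
  have hpos : 0 < p * p * nr 1 m := by rw [hNN]; omega
  -- the number of the conjunctions
  have hT : Fintype.card (Cf p l × Rest 1 m) * (Fintype.card (Bool × Fin (p * p)) + 1) ≤
      p * p * nr 1 m * K := by
    have h1 : Fintype.card (Cf p l × Rest 1 m) = nc p l * nr 1 m := by
      rw [Fintype.card_prod]; rfl
    have h2 : Fintype.card (Bool × Fin (p * p)) = 2 * (p * p) := by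
      rw [Fintype.card_prod, Fintype.card_bool, Fintype.card_fin]
    rw [h1, h2]
    have h3 : 1 ≤ p * p := Nat.mul_pos hp0 hp0
    calc nc p l * nr 1 m * (2 * (p * p) + 1) ≤ nc p l * nr 1 m * (3 * (p * p)) :=
          Nat.mul_le_mul_left _ (by omega)
      _ = p * p * nr 1 m * (nc p l * 3) := by ring
      _ ≤ p * p * nr 1 m * K := Nat.mul_le_mul_left _ (by omega)
  obtain ⟨φ, hφ⟩ := hQ M (p * p * nr 1 m) K (Cf p l × Rest 1 m) (Bool × Fin (p * p))
    (fun τ j => ix p 1 m (j.2, if j.1 then mv τ.1.1.1 τ.2 else τ.2))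
    (fun τ j => τ.1.1.2 j.1 j.2) hpos hK0 (by
      calc c * (p * p * nr 1 m * K + Fintype.card (Cf p l × Rest 1 m) *
            (Fintype.card (Bool × Fin (p * p)) + 1)) ≤
            c * (p * p * nr 1 m * K + p * p * nr 1 m * K) :=
            Nat.mul_le_mul_left _ (Nat.add_le_add_left hT _)
        _ = 2 * c * (N' * K) := by rw [hNN]; ring
        _ ≤ M := hn1)
  have hsat : ∀ x, Q M (we φ x) ↔ ∃ γ : Mu p l × Rest 1 m, Fm γ (px x) ≠ 0 := by
    intro x
    rw [hφ x, forms_dnf]
  -- exponents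
  have hMD : M / D ≤ N' / (8 * D0) := by
    calc M / D ≤ (32 * c * K * N') / (32 * c * K * (8 * D0)) := by
          refine Nat.div_le_div (hn2.trans_eq (by ring)) ?_ (by positivity)
          omega
      _ = N' / (8 * D0) := Nat.mul_div_mul_left _ _ hcK
  have hD2N : 2 * D0 ≤ N' := by
    have h6 : m * m ≤ N' := by
      rw [hN']
      calc m * m = 1 * (m * m * (1 * 1)) := by ring
        _ ≤ p * p * (m * m * (m * m)) := Nat.mul_le_mul (Nat.mul_pos hp0 hp0)
          (Nat.mul_le_mul_left _ (Nat.mul_le_mul hm0 hm0))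
    have h7 : 2 * m ≤ m * m := Nat.mul_le_mul_right _ (by omega)
    omega
  have hN8 : N' / (8 * D0) + 1 ≤ N' / D0 := by
    rw [Nat.le_div_iff_mul_le hD0]
    have h1 : 8 * D0 * (N' / (8 * D0)) ≤ N' := Nat.mul_div_le _ _
    have h2 : (N' / (8 * D0) + 1) * D0 = D0 * (N' / (8 * D0)) + D0 := by ring
    have h3 : 8 * D0 * (N' / (8 * D0)) = 8 * (D0 * (N' / (8 * D0))) := by ring
    omega
  have hN2 : N' / (2 * D0) + 1 ≤ N' / D0 := by
    rw [Nat.le_div_iff_mul_le hD0]
    have h1 : 2 * D0 * (N' / (2 * D0)) ≤ N' := Nat.mul_div_le _ _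
    have h2 : (N' / (2 * D0) + 1) * D0 = D0 * (N' / (2 * D0)) + D0 := by ring
    have h3 : 2 * D0 * (N' / (2 * D0)) = 2 * (D0 * (N' / (2 * D0))) := by ring
    omega
  have hs1 : 2 ^ (p * p * nr 1 m / D0) = 2 ^ (N' / D0) := by rw [hNN]
  have htt : k * M ≤ 32 * c * k * (p * p * nr 1 m * K) := by
    rw [hNN]
    calc k * M ≤ k * (32 * c * (N' * K)) := Nat.mul_le_mul_left _ hn2
      _ = _ := by ring
  have htt2 : k * M ≤ 32 * c * k * K * N' := by
    calc k * M ≤ k * (32 * c * (N' * K)) := Nat.mul_le_mul_left _ hn2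
      _ = _ := by ring
  obtain ⟨x, hx1, hx2⟩ := lift (n := p * p * nr 1 m) (K := K) hK0
    (fun z => ∀ γ : Mu p l × Rest 1 m, Fm γ z = 0) (32 * c * k) (2 ^ (p * p * nr 1 m / D0))
    (N' / (8 * D0))
    (by
      intro I' _ _ P' hs hf
      obtain ⟨z, hz1, hz2⟩ := hcore 1 m (by omega) I' P' hs
        (2 * (32 * c * k) * (p * p * nr 1 m)) le_rfl (by
          rintro z ⟨γ, hγ⟩ i l' hl'
          exact hf z (fun h => hγ (h γ)) i l' hl')
      refine ⟨z, hz1, lt_of_le_of_lt (Nat.mul_le_mul_right _ ?_) hz2⟩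
      rw [hs1]
      exact Nat.pow_le_pow_right (by norm_num) hN8)
    I (fun i => toE φ b (P i)) (k * M) htt (by
      intro i
      have h1 : Fintype.card (toE φ b (P i)).State < 2 ^ (N' / (8 * D0)) :=
        lt_of_lt_of_le (hP i) (Nat.pow_le_pow_right (by norm_num) hMD)
      have h2 := hclk N' (by omega) (k * M) htt2
      have h8 : 4 * (2 * D0) = 8 * D0 := by ring
      rw [h8] at h2
      rw [hs1]
      calc 2 * (Fintype.card (toE φ b (P i)).State * (k * M + 1)) <
          2 * (2 ^ (N' / (8 * D0)) * (k * M + 1)) :=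
            Nat.mul_lt_mul_of_pos_left
              (Nat.mul_lt_mul_of_pos_right h1 (Nat.succ_pos _)) (by norm_num)
        _ ≤ 2 * 2 ^ (N' / (2 * D0)) := Nat.mul_le_mul_left _ h2
        _ = 2 ^ (N' / (2 * D0) + 1) := by rw [pow_succ]; ring
        _ ≤ 2 ^ (N' / D0) := Nat.pow_le_pow_right (by norm_num) hN2)
    (by
      intro x hx i l' hl'
      by_contra hlt
      push Not at hx
      exact hP1 _ ((hsat x).2 hx) i ((toE_comp φ b (P i) x (k * M)).1 ⟨l', hl', by omega⟩))
  refine ⟨we φ x, ?_, ?_⟩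
  · rw [hsat]
    push Not
    exact hx1
  · have h2 : Nat.card {i : I // (P i).Answers (we φ x) (k * M) b} =
        Nat.card {i : I // ∃ l', (toE φ b (P i)).Comp x l' false ∧ l'.length ≤ k * M} :=
      Nat.card_congr (Equiv.subtypeEquivRight (fun i =>
        (toE_comp φ b (P i) x (k * M)).symm))
    rw [h2]
    exact lt_of_le_of_lt (Nat.mul_le_mul_right _ (Nat.pow_le_pow_right (by norm_num) hMD)) hx2

end Pool.Agent.TH706.PC
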