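import Pool.Agent.TH706.PC.Skip

set_option autoImplicit false
set_option linter.unusedSectionVars false

/-!
# Parities of blocks of variables

If a function of `n` variables is hard for programs with a stack and `2 k n` queries, on a small
fraction of its zeros, then the function of the parities of `n` blocks of `K` variables is hard for
`k n K` queries: in each block all variables but a random one are replaced by random constants; on
average one of `K` queries remains.
-/

open Finset

namespace Pool.Agent.TH706.PC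

open Pool.Agent.H554R2.Sem Pool.Agent.W952.Ap
open Pool.Agent.W896.PD (PP Act)
open Pool.Agent.W902.PDS (clk clk_comp clk_card)

section

variable {n K : ℕ}

/-- A bit as a number modulo two. -/
def vz (b : Bool) : ZMod 2 := if b then 1 else 0

theorem vz_xor (a b : Bool) : vz (xor a b) = vz a + vz b := by
  cases a <;> cases b <;> decide

theorem vz_inj {a b : Bool} (h : vz a = vz b) : a = b := by
  revert h; cases a <;> cases b <;> decide

/-- The sum of the bits of a block. -/
def sx (x : Fin n × Fin K → Bool) (j : Fin n) : ZMod 2 := ∑ u, vz (x (j, u))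

/-- The parities of the blocks. -/
def px (x : Fin n × Fin K → Bool) (j : Fin n) : Bool := decide (sx x j = 1)

theorem vz_px (x : Fin n × Fin K → Bool) (j : Fin n) : vz (px x j) = sx x j := by
  unfold px
  generalize sx x j = a
  revert a
  decide

/-- In each block the bit with the number `τ j` is changed by `z j`. -/
def sh (τ : Fin n → Fin K) (z : Fin n → Bool) (y : Fin n × Fin K → Bool) :
    Fin n × Fin K → Bool := fun e => if e.2 = τ e.1 then xor (y e) (z e.1) else y e

theorem sh_sh (τ : Fin n → Fin K) (z : Fin n → Bool) (y : Fin n × Fin K → Bool) :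
    sh τ z (sh τ z y) = y := by
  funext e
  unfold sh
  by_cases h : e.2 = τ e.1
  · simp only [h, if_true]
    cases y e <;> cases z e.1 <;> rfl
  · simp only [h, if_false]

theorem sx_sh (τ : Fin n → Fin K) (z : Fin n → Bool) (y : Fin n × Fin K → Bool) (j : Fin n) :
    sx (sh τ z y) j = sx y j + vz (z j) := by
  unfold sx sh
  have h : ∀ u : Fin K, vz (if u = τ j then xor (y (j, u)) (z j) else y (j, u)) =
      vz (y (j, u)) + (if u = τ j then vz (z j) else 0) := by
    intro u
    by_cases hu : u = τ j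
    · simp only [hu, if_true, vz_xor]
    · simp only [hu, if_false, add_zero]
  rw [Finset.sum_congr rfl (fun u _ => h u), Finset.sum_add_distrib, Finset.sum_ite_eq']
  simp

/-- The inputs all of whose parities are zero. -/
abbrev Ev (n K : ℕ) : Type := {y : Fin n × Fin K → Bool // ∀ j, sx y j = 0}

/-- The inputs with the parities `z`. -/
abbrev Fb (n K : ℕ) (z : Fin n → Bool) : Type := {x : Fin n × Fin K → Bool // px x = z}

/-- A bijection. -/
def evFb (τ : Fin n → Fin K) (z : Fin n → Bool) : Ev n K ≃ Fb n K z where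
  toFun y := ⟨sh τ z y.1, by
    funext j
    apply vz_inj
    rw [vz_px, sx_sh, y.2 j, zero_add]⟩
  invFun x := ⟨sh τ z x.1, fun j => by
    rw [sx_sh, ← vz_px, x.2]
    generalize z j = b
    cases b <;> decide⟩
  left_inv y := Subtype.ext (sh_sh τ z y.1)
  right_inv x := Subtype.ext (sh_sh τ z x.1)

/-- The substitution. -/
def fr (τ : Fin n → Fin K) (y : Fin n × Fin K → Bool) (e : Fin n × Fin K) :
    (Fin n × Bool) ⊕ Bool := if e.2 = τ e.1 then Sum.inl (e.1, !y e) else Sum.inr (y e)

theorem subs_fr (τ : Fin n → Fin K) (y : Fin n × Fin K → Bool) (z : Fin n → Bool) :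
    subs (fr τ y) z = sh τ z y := by
  funext e
  unfold sh subs fr
  by_cases h : e.2 = τ e.1
  · simp only [h, if_true]
    cases y e <;> cases z e.1 <;> rfl
  · simp only [h, if_false]

/-- The number of queries that remain. -/
def cn (τ : Fin n → Fin K) (l : List (Fin n × Fin K)) : ℕ :=
  (l.filter (fun e => decide (e.2 = τ e.1))).length

theorem kept_fr (τ : Fin n → Fin K) (y : Fin n × Fin K → Bool) (l : List (Fin n × Fin K)) :
    (kept (fr τ y) l).length = cn τ l := by
  induction l with
  | nil => rfl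
  | cons e l ih =>
    unfold kept cn at *
    by_cases h : e.2 = τ e.1
    · have h1 : fr τ y e = Sum.inl (e.1, !y e) := by simp [fr, h]
      rw [List.filterMap_cons, List.filter_cons]
      simp only [h1, h, decide_true, if_true, List.length_cons]
      rw [ih]
    · have h1 : fr τ y e = Sum.inr (y e) := by simp [fr, h]
      rw [List.filterMap_cons, List.filter_cons]
      simp only [h1, h, decide_false, Bool.false_eq_true, if_false]
      exact ih

theorem card_tau (j : Fin n) (u : Fin K) :
    K * (univ.filter fun τ : Fin n → Fin K => u = τ j).card = K ^ n := by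
  have h1 : ∀ v : Fin K, (univ.filter fun τ : Fin n → Fin K => v = τ j).card =
      (univ.filter fun τ : Fin n → Fin K => u = τ j).card := by
    intro v
    refine Finset.card_bij' (fun τ _ => fun i => Equiv.swap u v (τ i))
      (fun τ _ => fun i => Equiv.swap u v (τ i)) ?_ ?_ ?_ ?_
    · intro τ hτ
      rw [Finset.mem_filter] at hτ ⊢
      refine ⟨Finset.mem_univ _, ?_⟩
      show u = Equiv.swap u v (τ j)
      rw [← hτ.2, Equiv.swap_apply_right]
    · intro τ hτ
      rw [Finset.mem_filter] at hτ ⊢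
      refine ⟨Finset.mem_univ _, ?_⟩
      show v = Equiv.swap u v (τ j)
      rw [← hτ.2, Equiv.swap_apply_left]
    · intro τ _
      funext i
      simp
    · intro τ _
      funext i
      simp
  have h2 : ∑ v : Fin K, (univ.filter fun τ : Fin n → Fin K => v = τ j).card = K ^ n := by
    have h3 := Finset.card_eq_sum_card_fiberwise (s := (univ : Finset (Fin n → Fin K)))
      (t := (univ : Finset (Fin K))) (f := fun τ => τ j) (fun _ _ => Finset.mem_univ _)
    rw [Finset.card_univ, Fintype.card_fun, Fintype.card_fin, Fintype.card_fin] at h3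
    rw [h3]
    apply Finset.sum_congr rfl
    intro v _
    congr 1
    ext τ
    simp [eq_comm]
  rw [← h2, Finset.sum_congr rfl (fun v _ => h1 v), Finset.sum_const, smul_eq_mul,
    Finset.card_univ, Fintype.card_fin]

theorem sum_cn (l : List (Fin n × Fin K)) :
    K * ∑ τ : Fin n → Fin K, cn τ l = l.length * K ^ n := by
  induction l with
  | nil => simp [cn]
  | cons e l ih =>
    have h1 : ∀ τ : Fin n → Fin K, cn τ (e :: l) = (if e.2 = τ e.1 then 1 else 0) + cn τ l := by
      intro τ
      unfold cn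
      rw [List.filter_cons]
      by_cases h : e.2 = τ e.1
      · simp only [h, decide_true, if_true, List.length_cons]
        omega
      · simp only [h, decide_false, Bool.false_eq_true, if_false, zero_add]
    rw [Finset.sum_congr rfl (fun τ _ => h1 τ), Finset.sum_add_distrib, mul_add, ih,
      ← Finset.card_filter, card_tau, List.length_cons]
    ring

/-- Markov's inequality. -/
theorem many_tau (k : ℕ) (hK : 0 < K) (l : List (Fin n × Fin K)) (hl : l.length ≤ k * (n * K)) :
    K ^ n ≤ 2 * (univ.filter fun τ : Fin n → Fin K => cn τ l ≤ 2 * k * n).card := by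
  have h1 := sum_cn l
  have h2 : ∑ τ : Fin n → Fin K, cn τ l ≤ k * n * K ^ n := by
    have h3 : K * ∑ τ : Fin n → Fin K, cn τ l ≤ K * (k * n * K ^ n) := by
      rw [h1]
      calc l.length * K ^ n ≤ (k * (n * K)) * K ^ n := Nat.mul_le_mul_right _ hl
        _ = K * (k * n * K ^ n) := by ring
    exact Nat.le_of_mul_le_mul_left h3 hK
  have h4 : (univ.filter fun τ : Fin n → Fin K => ¬ cn τ l ≤ 2 * k * n).card * (2 * k * n + 1) ≤
      ∑ τ : Fin n → Fin K, cn τ l := by
    calc (univ.filter fun τ : Fin n → Fin K => ¬ cn τ l ≤ 2 * k * n).card * (2 * k * n + 1) =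
        ∑ τ ∈ univ.filter (fun τ : Fin n → Fin K => ¬ cn τ l ≤ 2 * k * n), (2 * k * n + 1) := by
          rw [Finset.sum_const, smul_eq_mul]
      _ ≤ ∑ τ ∈ univ.filter (fun τ : Fin n → Fin K => ¬ cn τ l ≤ 2 * k * n), cn τ l := by
          apply Finset.sum_le_sum
          intro τ hτ
          have := (Finset.mem_filter.1 hτ).2
          omega
      _ ≤ ∑ τ : Fin n → Fin K, cn τ l :=
          Finset.sum_le_sum_of_subset (Finset.filter_subset _ _)
  have h5 := Finset.card_filter_add_card_filter_not (s := (univ : Finset (Fin n → Fin K)))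
    (fun τ => cn τ l ≤ 2 * k * n)
  rw [Finset.card_univ, Fintype.card_fun, Fintype.card_fin, Fintype.card_fin] at h5
  obtain ⟨b, hb⟩ : ∃ b, b = (univ.filter fun τ : Fin n → Fin K => ¬ cn τ l ≤ 2 * k * n).card :=
    ⟨_, rfl⟩
  obtain ⟨g, hg⟩ : ∃ g, g = (univ.filter fun τ : Fin n → Fin K => cn τ l ≤ 2 * k * n).card :=
    ⟨_, rfl⟩
  rw [← hb] at h4 h5
  rw [← hg] at h5 ⊢
  have h6 : b * (2 * k * n + 1) ≤ k * n * K ^ n := h4.trans h2
  have h7 : 2 * b ≤ K ^ n := by
    rcases Nat.eq_zero_or_pos (k * n) with h0 | h0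
    · have h8 : b * (2 * k * n + 1) ≤ 0 := by
        calc b * (2 * k * n + 1) ≤ k * n * K ^ n := h6
          _ = 0 := by rw [h0, zero_mul]
      have h9 : b ≤ 0 := le_trans (Nat.le_mul_of_pos_right _ (by omega)) h8
      omega
    · have h8 : k * n * (2 * b) ≤ k * n * K ^ n := by
        calc k * n * (2 * b) ≤ b * (2 * k * n + 1) := by nlinarith
          _ ≤ _ := h6
      exact Nat.le_of_mul_le_mul_left h8 h0
  omega

theorem lift (hK : 0 < K) (G : Pt n → Prop) (k s e : ℕ)
    (base : ∀ (I : Type) [Fintype I] [Nonempty I] (P : I → PP (Fin n) Bool),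
      (∀ i, Fintype.card (P i).State < s) →
      (∀ x, ¬ G x → ∀ i l', (P i).Comp x l' false → 2 * k * n < l'.length) →
      ∃ x, G x ∧ 2 ^ (e + 1) *
        Nat.card {i : I // ∃ l', (P i).Comp x l' false ∧ l'.length ≤ 2 * k * n} < Nat.card I) :
    ∀ (I : Type) [Fintype I] [Nonempty I] (P : I → PP (Fin n × Fin K) Bool) (tt : ℕ),
      tt ≤ k * (n * K) →
      (∀ i, 2 * (Fintype.card (P i).State * (tt + 1)) < s) →
      (∀ x, ¬ G (px x) → ∀ i l, (P i).Comp x l false → tt < l.length) →
      ∃ x, G (px x) ∧ 2 ^ e *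
        Nat.card {i : I // ∃ l, (P i).Comp x l false ∧ l.length ≤ tt} < Nat.card I := by
  classical
  intro I _ _ P tt htt hPs hPf
  by_contra hneg
  push Not at hneg
  have hne : Nonempty (Fin n → Fin K) := ⟨fun _ => ⟨0, hK⟩⟩
  have hev : Nonempty (Ev n K) := ⟨⟨fun _ => false, fun j => by simp [sx, vz]⟩⟩
  obtain ⟨z, hz1, hz2⟩ := base (I × (Fin n → Fin K) × Ev n K)
    (fun q => skip (fr q.2.1 q.2.2.1) (clk (P q.1) tt)) (fun q => by
      rw [skip_card, clk_card]
      exact hPs q.1) (by
      intro z hz q l' hl'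
      exfalso
      obtain ⟨l, h1, -⟩ := (comp_skip _ _ _ _ _).1 hl'
      rw [subs_fr] at h1
      obtain ⟨h2, h3⟩ := (clk_comp _ _ _ _ _).1 h1
      have h4 : px (sh q.2.1 z q.2.2.1) = z := (evFb q.2.1 z q.2.2).2
      have h5 := hPf _ (by rw [h4]; exact hz) q.1 l h2
      omega)
  -- the number of accepting triples
  have hlow : ∀ q : I × (Fin n → Fin K) × Ev n K,
      (∃ l, (P q.1).Comp (sh q.2.1 z q.2.2.1) l false ∧ l.length ≤ tt ∧
        cn q.2.1 l ≤ 2 * k * n) →
      ∃ l', (skip (fr q.2.1 q.2.2.1) (clk (P q.1) tt)).Comp z l' false ∧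
        l'.length ≤ 2 * k * n := by
    rintro q ⟨l, h1, h2, h3⟩
    refine ⟨kept (fr q.2.1 q.2.2.1) l, (comp_skip _ _ _ _ _).2 ⟨l, ?_, rfl⟩, ?_⟩
    · rw [subs_fr]
      exact (clk_comp _ _ _ _ _).2 ⟨h1, h2⟩
    · rw [kept_fr]
      exact h3
  obtain ⟨W, hW⟩ : ∃ W : Finset (I × (Fin n → Fin K) × Ev n K), W = univ.filter (fun q =>
      ∃ l, (P q.1).Comp (sh q.2.1 z q.2.2.1) l false ∧ l.length ≤ tt ∧
        cn q.2.1 l ≤ 2 * k * n) := ⟨_, rfl⟩
  have hW1 : W.card ≤ Nat.card {q : I × (Fin n → Fin K) × Ev n K //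
      ∃ l', (skip (fr q.2.1 q.2.2.1) (clk (P q.1) tt)).Comp z l' false ∧
        l'.length ≤ 2 * k * n} := by
    rw [Nat.card_eq_fintype_card, Fintype.card_subtype, hW]
    apply Finset.card_le_card
    intro q hq
    rw [Finset.mem_filter] at hq ⊢
    exact ⟨Finset.mem_univ _, hlow q hq.2⟩
  -- the count in another order
  have hW2 : W.card = ∑ x : Fb n K z, ∑ i : I, (univ.filter fun τ : Fin n → Fin K =>
      ∃ l, (P i).Comp x.1 l false ∧ l.length ≤ tt ∧ cn τ l ≤ 2 * k * n).card := by
    have h1 : W.card = ∑ i : I, ∑ τ : Fin n → Fin K, ∑ y : Ev n K,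
        (if ∃ l, (P i).Comp (sh τ z y.1) l false ∧ l.length ≤ tt ∧
          cn τ l ≤ 2 * k * n then 1 else 0) := by
      rw [hW, Finset.card_filter, Fintype.sum_prod_type]
      apply Finset.sum_congr rfl
      intro i _
      rw [Fintype.sum_prod_type]
    rw [h1, Finset.sum_comm]
    have h2 : ∀ τ : Fin n → Fin K, ∑ i : I, ∑ y : Ev n K,
        (if ∃ l, (P i).Comp (sh τ z y.1) l false ∧ l.length ≤ tt ∧
          cn τ l ≤ 2 * k * n then 1 else 0) = ∑ x : Fb n K z, ∑ i : I,
        (if ∃ l, (P i).Comp x.1 l false ∧ l.length ≤ tt ∧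
          cn τ l ≤ 2 * k * n then 1 else 0) := by
      intro τ
      rw [Finset.sum_comm]
      exact Fintype.sum_equiv (evFb τ z) _ _ (fun y => rfl)
    rw [Finset.sum_congr rfl (fun τ _ => h2 τ), Finset.sum_comm]
    apply Finset.sum_congr rfl
    intro x _
    rw [Finset.sum_comm]
    apply Finset.sum_congr rfl
    intro i _
    rw [Finset.card_filter]
  have hcount : ∀ (x : Fb n K z) (i : I),
      (if ∃ l, (P i).Comp x.1 l false ∧ l.length ≤ tt then K ^ n else 0) ≤
      2 * (univ.filter fun τ : Fin n → Fin K =>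
        ∃ l, (P i).Comp x.1 l false ∧ l.length ≤ tt ∧ cn τ l ≤ 2 * k * n).card := by
    intro x i
    split_ifs with h
    · obtain ⟨l, h1, h2⟩ := h
      refine (many_tau k hK l (h2.trans htt)).trans (Nat.mul_le_mul_left _ (Finset.card_le_card ?_))
      intro τ hτ
      rw [Finset.mem_filter] at hτ ⊢
      exact ⟨Finset.mem_univ _, l, h1, h2, hτ.2⟩
    · exact Nat.zero_le _
  have hbig : ∀ x : Fb n K z, Nat.card I * K ^ n ≤ 2 ^ (e + 1) *
      ∑ i : I, (univ.filter fun τ : Fin n → Fin K =>
      ∃ l, (P i).Comp x.1 l false ∧ l.length ≤ tt ∧ cn τ l ≤ 2 * k * n).card := by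
    intro x
    have h1 := hneg x.1 (by rw [x.2]; exact hz1)
    rw [Nat.card_eq_fintype_card (α := {i : I // _}), Fintype.card_subtype] at h1
    calc Nat.card I * K ^ n ≤ (2 ^ e * (univ.filter fun i : I =>
          ∃ l, (P i).Comp x.1 l false ∧ l.length ≤ tt).card) * K ^ n :=
          Nat.mul_le_mul_right _ h1
      _ = 2 ^ e * ∑ i : I, (if ∃ l, (P i).Comp x.1 l false ∧ l.length ≤ tt
            then K ^ n else 0) := by
          rw [← Finset.sum_filter, Finset.sum_const, smul_eq_mul]
          ring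
      _ ≤ 2 ^ e * ∑ i : I, 2 * (univ.filter fun τ : Fin n → Fin K =>
            ∃ l, (P i).Comp x.1 l false ∧ l.length ≤ tt ∧ cn τ l ≤ 2 * k * n).card :=
          Nat.mul_le_mul_left _ (Finset.sum_le_sum fun i _ => hcount x i)
      _ = _ := by
          rw [← Finset.mul_sum, pow_succ]
          ring
  have hfin : Nat.card (I × (Fin n → Fin K) × Ev n K) ≤ 2 ^ (e + 1) * W.card := by
    rw [hW2, Finset.mul_sum]
    calc Nat.card (I × (Fin n → Fin K) × Ev n K) = ∑ x : Fb n K z, Nat.card I * K ^ n := by
          rw [Finset.sum_const, smul_eq_mul, Finset.card_univ,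
            ← Fintype.card_congr (evFb (Classical.choice hne) z)]
          simp only [Nat.card_eq_fintype_card, Fintype.card_prod, Fintype.card_fun,
            Fintype.card_fin]
          ring
      _ ≤ _ := Finset.sum_le_sum fun x _ => hbig x
  have hcon := hfin.trans (Nat.mul_le_mul_left _ hW1)
  omega

end

end Pool.Agent.TH706.PC
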