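import Pool.Agent.TH706.PC.Red

set_option autoImplicit false
set_option linter.unusedSectionVars false

/-!
# Circuits in systems of linear inequalities
-/

open Finset

namespace Pool.Agent.TH706.PC

open Pool.Agent.H554R2.Sem
open Pool.Agent.TH706.LS

/-- A linear inequality `c₀ x_(v₀) + c₁ x_(v₁) + c₂ x_(v₂) ≥ β` for real unknowns with names in `V`;
the coefficients and `β` are `-1`, `0` or `1`. -/
abbrev Ineq (V : Type) : Type := (Fin 3 → V × SignType) × SignType

/-- The inequality is true. -/
def Ineq.Holds {V : Type} (r : Ineq V) (x : V → ℝ) : Prop :=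
  ∑ j, ((r.1 j).2 : ℝ) * x (r.1 j).1 ≥ (r.2 : ℝ)

/-- The system of the inequalities `w i` is feasible over the reals. -/
def Feasible {V ι : Type} (w : ι → Ineq V) : Prop := ∃ x : V → ℝ, ∀ i, (w i).Holds x

/-- The unknowns of a gate. -/
inductive LV where
  | p | q | m (s t : Bool) | s (t : Bool) | v
  deriving DecidableEq

instance : Fintype LV where
  elems := {LV.p, LV.q, LV.m false false, LV.m false true, LV.m true false, LV.m true true,
    LV.s false, LV.s true, LV.v}
  complete := by
    intro x
    cases x with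
    | p => simp
    | q => simp
    | m s t => cases s <;> cases t <;> simp
    | s t => cases t <;> simp
    | v => simp

theorem card_lv : Fintype.card LV = 9 := by decide

/-- One of the two inequalities of an equation. -/
def eqn {V : Type} (s : Bool) (a b c : V × SignType) (β : SignType) : Ineq V :=
  if s then (![a, b, c], β) else (![(a.1, -a.2), (b.1, -b.2), (c.1, -c.2)], -β)

/-- A single inequality. -/
def ine {V : Type} (a b c : V × SignType) (β : SignType) : Ineq V := (![a, b, c], β)

theorem holds_ine {V : Type} (a b c : V × SignType) (β : SignType) (x : V → ℝ) :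
    (ine a b c β).Holds x ↔
      (a.2 : ℝ) * x a.1 + (b.2 : ℝ) * x b.1 + (c.2 : ℝ) * x c.1 ≥ (β : ℝ) := by
  unfold Ineq.Holds ine
  rw [Fin.sum_univ_three]
  simp

theorem holds_eqn {V : Type} (a b c : V × SignType) (β : SignType) (x : V → ℝ) :
    (∀ s, (eqn s a b c β).Holds x) ↔
      (a.2 : ℝ) * x a.1 + (b.2 : ℝ) * x b.1 + (c.2 : ℝ) * x c.1 = (β : ℝ) := by
  have h1 : (eqn true a b c β).Holds x ↔
      (a.2 : ℝ) * x a.1 + (b.2 : ℝ) * x b.1 + (c.2 : ℝ) * x c.1 ≥ (β : ℝ) := by
    unfold Ineq.Holds eqn
    rw [Fin.sum_univ_three]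
    simp
  have h2 : (eqn false a b c β).Holds x ↔
      -((a.2 : ℝ) * x a.1) - (b.2 : ℝ) * x b.1 - (c.2 : ℝ) * x c.1 ≥ -(β : ℝ) := by
    unfold Ineq.Holds eqn
    rw [Fin.sum_univ_three]
    simp only [Bool.false_eq_true, if_false, Matrix.cons_val_zero, Matrix.cons_val_one,
      Matrix.cons_val]
    rw [SignType.coe_neg, SignType.coe_neg, SignType.coe_neg, SignType.coe_neg]
    constructor <;> intro h <;> linarith
  constructor
  · intro h
    have h3 := h1.1 (h true)
    have h4 := h2.1 (h false)
    linarith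
  · intro h s
    cases s
    · exact h2.2 (by linarith)
    · exact h1.2 (by linarith)

/-- Zero or one. -/
def cf (b : Bool) : SignType := if b then 1 else 0

/-- The inequalities of a gate. -/
abbrev RT : Type := (Bool × Fin 8) ⊕ Fin 4

/-- The inequalities of the gate number `i` with the record `g`. -/
def row {M : ℕ} (i : Fin M) (g : Gate M) : RT → Ineq (Fin M × LV)
  | .inl (s, 0) => eqn s ((i, .p), 1) ((g.fst, .v), - cf (decide (g.fst < i))) ((i, .p), 0) 0
  | .inl (s, 1) => eqn s ((i, .q), 1) ((g.snd, .v), - cf (decide (g.snd < i))) ((i, .q), 0) 0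
  | .inl (s, 2) => eqn s ((i, .m true false), 1) ((i, .m true true), 1) ((i, .p), -1) 0
  | .inl (s, 3) => eqn s ((i, .m false true), 1) ((i, .m true true), 1) ((i, .q), -1) 0
  | .inl (s, 4) => eqn s ((i, .m false false), 1) ((i, .m false true), 1) ((i, .p), 1) 1
  | .inl (s, 5) => eqn s ((i, .s false), 1) ((i, .m false false), - cf (g.op false false))
      ((i, .m false true), - cf (g.op false true)) 0
  | .inl (s, 6) => eqn s ((i, .s true), 1) ((i, .m true false), - cf (g.op true false))
      ((i, .m true true), - cf (g.op true true)) 0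
  | .inl (s, 7) => eqn s ((i, .v), 1) ((i, .s false), -1) ((i, .s true), -1) 0
  | .inr 0 => ine ((i, .p), 1) ((i, .m true true), -1) ((i, .p), 0) 0
  | .inr 1 => ine ((i, .q), 1) ((i, .m true true), -1) ((i, .p), 0) 0
  | .inr 2 => ine ((i, .m true true), 1) ((i, .p), -1) ((i, .q), -1) (-1)
  | .inr 3 => ine ((i, .m true true), 1) ((i, .p), 0) ((i, .p), 0) 0

/-- Bits as reals. -/
def rl (b : Bool) : ℝ := if b then 1 else 0

theorem cf_coe (b : Bool) : ((cf b : SignType) : ℝ) = rl b := by
  cases b <;> simp [cf, rl]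

/-- What the inequalities of a gate say. -/
theorem gate_rows {M : ℕ} (i : Fin M) (g : Gate M) (x : Fin M × LV → ℝ) (a b : Bool)
    (ha : rl (decide (g.fst < i)) * x (g.fst, .v) = rl a)
    (hb : rl (decide (g.snd < i)) * x (g.snd, .v) = rl b) :
    (∀ t, (row i g t).Holds x) ↔
      x (i, .p) = rl a ∧ x (i, .q) = rl b ∧
      (∀ s t, x (i, .m s t) = rl (s == a && t == b)) ∧
      x (i, .s false) = rl (!a && g.op a b) ∧ x (i, .s true) = rl (a && g.op a b) ∧
      x (i, .v) = rl (g.op a b) := by
  have key : (∀ t, (row i g t).Holds x) ↔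
      ((∀ s, (row i g (.inl (s, 0))).Holds x) ∧ (∀ s, (row i g (.inl (s, 1))).Holds x) ∧
      (∀ s, (row i g (.inl (s, 2))).Holds x) ∧ (∀ s, (row i g (.inl (s, 3))).Holds x) ∧
      (∀ s, (row i g (.inl (s, 4))).Holds x) ∧ (∀ s, (row i g (.inl (s, 5))).Holds x) ∧
      (∀ s, (row i g (.inl (s, 6))).Holds x) ∧ (∀ s, (row i g (.inl (s, 7))).Holds x)) ∧
      ((row i g (.inr 0)).Holds x ∧ (row i g (.inr 1)).Holds x ∧ (row i g (.inr 2)).Holds x ∧
      (row i g (.inr 3)).Holds x) := by
    constructor
    · intro h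
      exact ⟨⟨fun s => h _, fun s => h _, fun s => h _, fun s => h _, fun s => h _, fun s => h _,
        fun s => h _, fun s => h _⟩, h _, h _, h _, h _⟩
    · rintro ⟨⟨h0, h1, h2, h3, h4, h5, h6, h7⟩, g0, g1, g2, g3⟩ t
      match t with
      | .inl (s, 0) => exact h0 s
      | .inl (s, 1) => exact h1 s
      | .inl (s, 2) => exact h2 s
      | .inl (s, 3) => exact h3 s
      | .inl (s, 4) => exact h4 s
      | .inl (s, 5) => exact h5 s
      | .inl (s, 6) => exact h6 s
      | .inl (s, 7) => exact h7 s
      | .inr 0 => exact g0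
      | .inr 1 => exact g1
      | .inr 2 => exact g2
      | .inr 3 => exact g3
  rw [key]
  unfold row
  simp only [holds_eqn, holds_ine, SignType.coe_one, SignType.coe_zero,
    SignType.coe_neg, cf_coe]
  have hall : (∀ s t, x (i, .m s t) = rl (s == a && t == b)) ↔
      (x (i, .m false false) = rl (!a && !b) ∧ x (i, .m false true) = rl (!a && b) ∧
      x (i, .m true false) = rl (a && !b) ∧ x (i, .m true true) = rl (a && b)) := by
    constructor
    · intro h
      refine ⟨?_, ?_, ?_, ?_⟩
      · rw [h]; cases a <;> cases b <;> rfl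
      · rw [h]; cases a <;> cases b <;> rfl
      · rw [h]; cases a <;> cases b <;> rfl
      · rw [h]; cases a <;> cases b <;> rfl
    · rintro ⟨h1, h2, h3, h4⟩ s t
      cases s <;> cases t
      · rw [h1]; cases a <;> cases b <;> rfl
      · rw [h2]; cases a <;> cases b <;> rfl
      · rw [h3]; cases a <;> cases b <;> rfl
      · rw [h4]; cases a <;> cases b <;> rfl
  rw [hall]
  generalize x (i, .p) = P at *
  generalize x (i, .q) = Q at *
  generalize x (i, .m false false) = m00 at *
  generalize x (i, .m false true) = m01 at *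
  generalize x (i, .m true false) = m10 at *
  generalize x (i, .m true true) = m11 at *
  generalize x (i, .s false) = s0 at *
  generalize x (i, .s true) = s1 at *
  generalize x (i, .v) = v at *
  constructor
  · rintro ⟨⟨h0, h1, h2, h3, h4, h5, h6, h7⟩, g0, g1, g2, g3⟩
    have hP : P = rl a := by linarith
    have hQ : Q = rl b := by linarith
    have h11 : m11 = rl (a && b) := by
      rw [hP] at g0 g2
      rw [hQ] at g1 g2
      cases a <;> cases b <;> simp only [rl, Bool.and_true, Bool.and_false, Bool.false_eq_true,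
        if_true, if_false] at * <;> linarith
    have h10 : m10 = rl (a && !b) := by
      have : m10 = P - m11 := by linarith
      rw [this, hP, h11]
      cases a <;> cases b <;> simp [rl]
    have h01 : m01 = rl (!a && b) := by
      have : m01 = Q - m11 := by linarith
      rw [this, hQ, h11]
      cases a <;> cases b <;> simp [rl]
    have h00 : m00 = rl (!a && !b) := by
      have : m00 = 1 - P - m01 := by linarith
      rw [this, hP, h01]
      cases a <;> cases b <;> simp [rl]
    have hs0 : s0 = rl (!a && g.op a b) := by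
      have : s0 = rl (g.op false false) * m00 + rl (g.op false true) * m01 := by linarith
      rw [this, h00, h01]
      cases a <;> cases b <;> simp [rl]
    have hs1 : s1 = rl (a && g.op a b) := by
      have : s1 = rl (g.op true false) * m10 + rl (g.op true true) * m11 := by linarith
      rw [this, h10, h11]
      cases a <;> cases b <;> simp [rl]
    refine ⟨hP, hQ, ⟨h00, h01, h10, h11⟩, hs0, hs1, ?_⟩
    have : v = s0 + s1 := by linarith
    rw [this, hs0, hs1]
    cases a <;> simp [rl]
  · rintro ⟨hP, hQ, ⟨h00, h01, h10, h11⟩, hs0, hs1, hv⟩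
    rw [hP, hQ, h00, h01, h10, h11, hs0, hs1, hv]
    refine ⟨⟨?_, ?_, ?_, ?_, ?_, ?_, ?_, ?_⟩, ?_, ?_, ?_, ?_⟩
    · rw [neg_mul, ha]; ring
    · rw [neg_mul, hb]; ring
    · cases a <;> cases b <;> simp [rl]
    · cases a <;> cases b <;> simp [rl]
    · cases a <;> cases b <;> simp [rl]
    · cases a <;> cases b <;> simp [rl]
    · cases a <;> cases b <;> simp [rl]
    · generalize g.op a b = c
      cases a <;> cases c <;> simp [rl]
    · cases a <;> cases b <;> simp [rl]
    · cases a <;> cases b <;> simp [rl]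
    · cases a <;> cases b <;> simp [rl]
    · cases a <;> cases b <;> simp [rl]

/-- All the inequalities: those of the gates, and that the last gate has the value one. -/
def rows {M : ℕ} (last : Fin M) (w : Fin M → Gate M) :
    (Fin M × RT) ⊕ Unit → Ineq (Fin M × LV)
  | .inl (i, t) => row i (w i) t
  | .inr _ => ine ((last, .v), 1) ((last, .v), 0) ((last, .v), 0) 1

theorem rl_inp {M : ℕ} (w : Fin M → Gate M) (i a : Fin M) (x : Fin M × LV → ℝ)
    (h : a < i → x (a, .v) = rl (val w a)) :
    rl (decide (a < i)) * x (a, .v) = rl (inp w i a) := by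
  unfold inp
  by_cases hai : a < i
  · rw [if_pos hai, h hai]
    simp [rl, hai]
  · rw [if_neg hai]
    simp [rl, hai]

theorem feasible_rows {M : ℕ} (last : Fin M) (w : Fin M → Gate M) :
    (∃ x : Fin M × LV → ℝ, ∀ d, (rows last w d).Holds x) ↔ val w last = true := by
  constructor
  · rintro ⟨x, hx⟩
    have h : ∀ (L : ℕ) (i : Fin M), i.val < L → x (i, .v) = rl (val w i) := by
      intro L
      induction L with
      | zero => intro i hi; omega
      | succ L ih =>
        intro i hi
        have h1 := (gate_rows i (w i) x (inp w i (w i).fst) (inp w i (w i).snd)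
          (rl_inp w i _ x (fun h => ih _ (by rw [Fin.lt_def] at h; omega)))
          (rl_inp w i _ x (fun h => ih _ (by rw [Fin.lt_def] at h; omega)))).1
          (fun t => hx (.inl (i, t)))
        rw [h1.2.2.2.2.2, ← val_eq]
    have h2 := hx (.inr ())
    unfold rows at h2
    rw [holds_ine] at h2
    simp only [SignType.coe_one, SignType.coe_zero] at h2
    rw [h _ last (Nat.lt_succ_self _)] at h2
    cases hv : val w last
    · rw [hv] at h2
      simp only [rl, Bool.false_eq_true, if_false] at h2
      norm_num at h2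
    · rfl
  · intro hv
    obtain ⟨x, hx⟩ : ∃ x : Fin M × LV → ℝ, x = fun e => match e with
      | (i, .p) => rl (inp w i (w i).fst)
      | (i, .q) => rl (inp w i (w i).snd)
      | (i, .m s t) => rl (s == inp w i (w i).fst && t == inp w i (w i).snd)
      | (i, .s false) => rl (!inp w i (w i).fst &&
          (w i).op (inp w i (w i).fst) (inp w i (w i).snd))
      | (i, .s true) => rl (inp w i (w i).fst &&
          (w i).op (inp w i (w i).fst) (inp w i (w i).snd))
      | (i, .v) => rl (val w i) := ⟨_, rfl⟩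
    refine ⟨x, ?_⟩
    rintro (⟨i, t⟩ | u)
    · refine (gate_rows i (w i) x (inp w i (w i).fst) (inp w i (w i).snd)
        (rl_inp w i _ x (fun _ => by rw [hx])) (rl_inp w i _ x (fun _ => by rw [hx]))).2 ?_ t
      rw [hx]
      exact ⟨rfl, rfl, fun s t => rfl, rfl, rfl, by simp only; rw [← val_eq]⟩
    · unfold rows
      rw [holds_ine, hx]
      simp [hv, rl]

/-- The inequalities, each with the gate on which it depends. -/
def rho {M : ℕ} (last : Fin M) : (Fin M × RT) ⊕ Unit → Fin M × (Gate M → Ineq (Fin M × LV))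
  | .inl (i, t) => (i, fun g => row i g t)
  | .inr _ => (last, fun _ => ine ((last, .v), 1) ((last, .v), 0) ((last, .v), 0) 1)

theorem rho_eq {M : ℕ} (last : Fin M) (w : Fin M → Gate M) (d : (Fin M × RT) ⊕ Unit) :
    (rho last d).2 (w (rho last d).1) = rows last w d := by
  rcases d with ⟨i, t⟩ | u <;> rfl

/-- Change of names. -/
def Ineq.ren {V W : Type} (f : V → W) (r : Ineq V) : Ineq W :=
  (fun j => (f (r.1 j).1, (r.1 j).2), r.2)

theorem feasible_ren {V W ι κ : Type} {f : V → W} (hf : Function.Injective f) {s : κ → ι}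
    (hs : Function.Surjective s) (w : ι → Ineq V) :
    Feasible (fun j => (w (s j)).ren f) ↔ ∃ x : V → ℝ, ∀ i, (w i).Holds x := by
  constructor
  · rintro ⟨x, hx⟩
    refine ⟨fun v => x (f v), fun i => ?_⟩
    obtain ⟨j, rfl⟩ := hs i
    exact hx j
  · rintro ⟨x, hx⟩
    refine ⟨Function.extend f x (fun _ => 0), fun j => ?_⟩
    have h := hx (s j)
    unfold Ineq.Holds Ineq.ren at *
    simp only [hf.extend_apply]
    exact h

theorem lp_red (M' : ℕ) (h : 0 < M' / 21) :
    ∃ ρ : Fin M' → Fin (M' / 21) × (Gate (M' / 21) → Ineq (Fin M')),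
      ∀ w : Fin (M' / 21) → Gate (M' / 21),
        Feasible (fun i => (ρ i).2 (w (ρ i).1)) ↔ HasValue w true := by
  obtain ⟨M, hM⟩ : ∃ M, M = M' / 21 := ⟨_, rfl⟩
  have hMM : 21 * M ≤ M' := by rw [hM]; exact Nat.mul_div_le _ _
  rw [← hM] at h ⊢
  obtain ⟨f, hf⟩ := exists_inj (B := Fin M × LV) (M := M') (by
    rw [Fintype.card_prod, Fintype.card_fin, card_lv]
    omega)
  have hne : Nonempty ((Fin M × RT) ⊕ Unit) := ⟨.inr ()⟩
  obtain ⟨s, hs⟩ := exists_surj (B := (Fin M × RT) ⊕ Unit) (M := M') (by
    have h1 : Fintype.card ((Fin M × RT) ⊕ Unit) = M * (2 * 8 + 4) + 1 := by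
      simp only [Fintype.card_sum, Fintype.card_prod, Fintype.card_fin, Fintype.card_bool,
        Fintype.card_unit]
    rw [h1]
    omega)
  obtain ⟨last, hlast⟩ : ∃ last : Fin M, ∀ j, j ≤ last := ⟨⟨M - 1, by omega⟩, fun j => by
    rw [Fin.le_def]
    have := j.2
    show j.val ≤ M - 1
    omega⟩
  refine ⟨fun j => ((rho last (s j)).1, fun g => ((rho last (s j)).2 g).ren f), fun w => ?_⟩
  rw [hasValue_iff hlast, ← feasible_rows last w, ← feasible_ren hf hs (rows last w)]
  simp only [rho_eq]

/-- Linear feasibility. -/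
theorem lp_main (b : Bool) (k : ℕ) : ∃ D : ℕ, 0 < D ∧ ∀ M ≥ D,
    ∀ (I : Type) [Fintype I] [Nonempty I] (P : I → SP (Fin M) (Ineq (Fin M))),
    (∀ i, Fintype.card (P i).State < 2 ^ (M / D)) →
    (∀ w : Fin M → Ineq (Fin M), ¬ (Feasible w ↔ b = true) →
      ∀ i, ¬ (P i).Answers w (k * M) b) →
    ∃ w : Fin M → Ineq (Fin M), (Feasible w ↔ b = true) ∧
      2 ^ (M / D) * Nat.card {i : I // (P i).Answers w (k * M) b} < Nat.card I :=
  both_of_red (β := fun M => Ineq (Fin M)) (fun _ w => Feasible w) 21 (by norm_num) lp_red b k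

end Pool.Agent.TH706.PC
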