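import Pool.Agent.TH706.PC.Circ

set_option autoImplicit false
set_option linter.unusedSectionVars false

/-!
# Reductions in which each letter depends on one letter
-/

namespace Pool.Agent.TH706.PC

open Pool.Agent.H554R2.Sem
open Pool.Agent.TH706.LS

theorem Compiles.reduce {α β : ℕ → Type} {Q : ∀ M, (Fin M → α M) → Prop}
    {Q' : ∀ M, (Fin M → β M) → Prop} {c : ℕ} (hc : 0 < c) (hQ : Compiles Q c) (r : ℕ) (hr : 0 < r)
    (red : ∀ M' : ℕ, 0 < M' / r → ∃ ρ : Fin M' → Fin (M' / r) × (α (M' / r) → β M'),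
      ∀ w : Fin (M' / r) → α (M' / r), Q' M' (fun i => (ρ i).2 (w (ρ i).1)) ↔ Q (M' / r) w) :
    Compiles Q' (r * c) := by
  intro M' n K T J _ _ var sg hn hK hM
  have h1 : c * (n * K + Fintype.card T * (Fintype.card J + 1)) ≤ M' / r := by
    rw [Nat.le_div_iff_mul_le hr]
    calc c * (n * K + Fintype.card T * (Fintype.card J + 1)) * r =
        r * c * (n * K + Fintype.card T * (Fintype.card J + 1)) := by ring
      _ ≤ M' := hM
  have h2 : 0 < M' / r := by
    refine lt_of_lt_of_le ?_ h1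
    have : 0 < n * K := Nat.mul_pos hn hK
    exact Nat.mul_pos hc (by omega)
  obtain ⟨φ, hφ⟩ := hQ (M' / r) n K T J var sg hn hK h1
  obtain ⟨ρ, hρ⟩ := red M' h2
  refine ⟨fun i => ((φ (ρ i).1).1, fun b => (ρ i).2 ((φ (ρ i).1).2 b)), fun x => ?_⟩
  rw [← hφ x, ← hρ (we φ x)]
  rfl

/-- A surjection onto a smaller set. -/
theorem exists_surj {B : Type} [Fintype B] [Nonempty B] {M : ℕ} (h : Fintype.card B ≤ M) :
    ∃ f : Fin M → B, Function.Surjective f := by
  have h1 : Fintype.card B ≤ Fintype.card (Fin M) := by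
    rw [Fintype.card_fin]
    exact h
  obtain ⟨e⟩ := Function.Embedding.nonempty_of_card_le h1
  exact ⟨Function.invFun e, Function.invFun_surjective e.injective⟩

/-- An injection into a larger set. -/
theorem exists_inj {B : Type} [Fintype B] {M : ℕ} (h : Fintype.card B ≤ M) :
    ∃ f : B → Fin M, Function.Injective f := by
  have h1 : Fintype.card B ≤ Fintype.card (Fin M) := by
    rw [Fintype.card_fin]
    exact h
  obtain ⟨e⟩ := Function.Embedding.nonempty_of_card_le h1
  exact ⟨e, e.injective⟩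

/-- The value of the first (second) input of a gate. -/
def inp {M : ℕ} (w : Fin M → Gate M) (i a : Fin M) : Bool := if a < i then val w a else false

theorem val_eq {M : ℕ} (w : Fin M → Gate M) (i : Fin M) :
    val w i = (w i).op (inp w i (w i).fst) (inp w i (w i).snd) := by
  rw [val]
  unfold inp
  simp only [dite_eq_ite]

/-- The lower bound for both answers. -/
theorem both {α : ℕ → Type} (Q : ∀ M, (Fin M → α M) → Prop) (c : ℕ) (hc : 0 < c)
    (h1 : Compiles Q c) (h2 : Compiles (fun M w => ¬ Q M w) c) (b : Bool) (k : ℕ) :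
    ∃ D : ℕ, 0 < D ∧ ∀ M ≥ D,
    ∀ (I : Type) [Fintype I] [Nonempty I] (P : I → SP (Fin M) (α M)),
    (∀ i, Fintype.card (P i).State < 2 ^ (M / D)) →
    (∀ w, ¬ (Q M w ↔ b = true) → ∀ i, ¬ (P i).Answers w (k * M) b) →
    ∃ w, (Q M w ↔ b = true) ∧
      2 ^ (M / D) * Nat.card {i : I // (P i).Answers w (k * M) b} < Nat.card I := by
  cases b with
  | false =>
    obtain ⟨D, hD, h⟩ := pmain Q c hc h1 false k
    refine ⟨D, hD, ?_⟩
    intro M hM I _ _ P hP hf
    obtain ⟨w, h3, h4⟩ := h M hM I P hP (fun w hw => hf w (by simp [hw]))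
    exact ⟨w, by simp [h3], h4⟩
  | true =>
    obtain ⟨D, hD, h⟩ := pmain (fun M w => ¬ Q M w) c hc h2 true k
    refine ⟨D, hD, ?_⟩
    intro M hM I _ _ P hP hf
    obtain ⟨w, h3, h4⟩ := h M hM I P hP (fun w hw => hf w (by simp [hw]))
    exact ⟨w, by simpa using h3, h4⟩

theorem not_hasValue {M : ℕ} (hM : 0 < M) (w : Fin M → Gate M) (b : Bool) :
    ¬ HasValue w b ↔ HasValue w (!b) := by
  have hlast : ∀ j : Fin M, j ≤ ⟨M - 1, by omega⟩ := by
    intro j
    rw [Fin.le_def]
    have := j.2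
    show j.val ≤ M - 1
    omega
  rw [hasValue_iff hlast, hasValue_iff hlast]
  cases val w ⟨M - 1, by omega⟩ <;> cases b <;> simp

/-- The lower bound for problems to which the circuit value problem can be reduced so that each
letter depends on one gate. -/
theorem both_of_red {β : ℕ → Type} (Q' : ∀ M, (Fin M → β M) → Prop) (r : ℕ) (hr : 0 < r)
    (red : ∀ M' : ℕ, 0 < M' / r → ∃ ρ : Fin M' → Fin (M' / r) × (Gate (M' / r) → β M'),
      ∀ w : Fin (M' / r) → Gate (M' / r),
        Q' M' (fun i => (ρ i).2 (w (ρ i).1)) ↔ HasValue w true) (b : Bool) (k : ℕ) :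
    ∃ D : ℕ, 0 < D ∧ ∀ M ≥ D,
    ∀ (I : Type) [Fintype I] [Nonempty I] (P : I → SP (Fin M) (β M)),
    (∀ i, Fintype.card (P i).State < 2 ^ (M / D)) →
    (∀ w, ¬ (Q' M w ↔ b = true) → ∀ i, ¬ (P i).Answers w (k * M) b) →
    ∃ w, (Q' M w ↔ b = true) ∧
      2 ^ (M / D) * Nat.card {i : I // (P i).Answers w (k * M) b} < Nat.card I := by
  refine both Q' (r * 6) (by omega) ((compiles_circ true).reduce (by norm_num) r hr red)
    ((compiles_circ false).reduce (by norm_num) r hr ?_) b k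
  intro M' h
  obtain ⟨ρ, hρ⟩ := red M' h
  refine ⟨ρ, fun w => ?_⟩
  show ¬ Q' M' _ ↔ HasValue w false
  rw [hρ w, not_hasValue h w true]
  rfl

end Pool.Agent.TH706.PC
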