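import Pool.Agent.TH706.LS.Plug
import Pool.Agent.W902.PDS.Clock

set_option autoImplicit false

/-!
# Substitution of literals and constants in a program with a stack; constants are not queried

This is as `Pool.Agent.TH706.LS.plug`, but a query of a variable that is replaced by a constant is
replaced by a push and a pop.
-/

namespace Pool.Agent.TH706.PC

open Pool.Agent.H554R2.Sem Pool.Agent.W952.Ap
open Pool.Agent.W896.PD (PP Act)

variable {E : Type} {m : ℕ}

/-- The action of the new program in an old node `s`. -/
def nda (φ : E → (Fin m × Bool) ⊕ Bool) {S Γ : Type} (s : S) (a : Act E Bool S Γ) :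
    Act (Fin m) Bool (S ⊕ S) (Option Γ) :=
  match a with
  | .query i nxt =>
    match φ i with
    | Sum.inl (v, c) => .query v (fun b => Sum.inl (nxt (decide (b = c))))
    | Sum.inr _ => .push none (Sum.inr s)
  | .push a q => .push (some a) (Sum.inl q)
  | .pop nxt => .pop (fun o => (o.map (fun a => Sum.inl (nxt a))).getD (Sum.inl s))
  | .out b => .out b

/-- The action of the new program in the copy of an old node `s`. -/
def ndb (φ : E → (Fin m × Bool) ⊕ Bool) {S Γ : Type} (s : S) (a : Act E Bool S Γ) :
    Act (Fin m) Bool (S ⊕ S) (Option Γ) :=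
  .pop (fun _ => match a with
  | .query i nxt =>
    match φ i with
    | Sum.inl _ => Sum.inl s
    | Sum.inr c => Sum.inl (nxt c)
  | _ => Sum.inl s)

/-- The new program. -/
@[reducible] def skip (φ : E → (Fin m × Bool) ⊕ Bool) (P : PP E Bool) : PP (Fin m) Bool where
  State := P.State ⊕ P.State
  Sym := Option P.Sym
  start := Sum.inl P.start
  act := fun s => match s with
    | Sum.inl q => nda φ q (P.act q)
    | Sum.inr q => ndb φ q (P.act q)

/-- The queries that remain. -/
def kept (φ : E → (Fin m × Bool) ⊕ Bool) (l : List E) : List (Fin m) :=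
  l.filterMap (fun e => match φ e with
    | Sum.inl v => some v.1
    | Sum.inr _ => none)

theorem skip_to (φ : E → (Fin m × Bool) ⊕ Bool) (P : PP E Bool) (x : Pt m)
    {q : P.State} {σ : List P.Sym} {l : List E} {b : Bool}
    (h : P.Runs (subs φ x) q σ l b) :
    (skip φ P).Runs x (Sum.inl q) (σ.map some) (kept φ l) b := by
  induction h with
  | @out q σ b h =>
    refine PP.Runs.out ?_
    show nda φ q (P.act q) = _
    rw [h]; rfl
  | @query q σ i nxt l b h _ ih =>
    rcases hφ : φ i with ⟨v, c⟩ | c
    · have h1 : kept φ (i :: l) = v :: kept φ l := by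
        simp [kept, hφ]
      rw [h1]
      refine PP.Runs.query (P := skip φ P) (nxt := fun b => Sum.inl (nxt (decide (b = c)))) ?_ ?_
      · show nda φ q (P.act q) = _
        rw [h]; simp [nda, hφ]
      · have h2 : subs φ x i = decide (x v = c) := by simp [subs, hφ]
        rw [h2] at ih
        exact ih
    · have h1 : kept φ (i :: l) = kept φ l := by
        simp [kept, hφ]
      rw [h1]
      refine PP.Runs.push (P := skip φ P) (a := none) (q' := Sum.inr q) ?_ ?_
      · show nda φ q (P.act q) = _
        rw [h]; simp [nda, hφ]
      · refine PP.Runs.pop (P := skip φ P) (nxt := fun _ => Sum.inl (nxt c)) ?_ ?_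
        · show ndb φ q (P.act q) = _
          rw [h]; simp [ndb, hφ]
        · have h2 : subs φ x i = c := by simp [subs, hφ]
          rw [h2] at ih
          exact ih
  | @push q σ a q' l b h _ ih =>
    refine PP.Runs.push (P := skip φ P) (a := some a) (q' := Sum.inl q') ?_ ih
    show nda φ q (P.act q) = _
    rw [h]; rfl
  | @pop q a σ nxt l b h _ ih =>
    refine PP.Runs.pop (P := skip φ P)
      (nxt := fun o => (o.map (fun a => Sum.inl (nxt a))).getD (Sum.inl q)) ?_ ih
    show nda φ q (P.act q) = _
    rw [h]; rfl

theorem skip_of (φ : E → (Fin m × Bool) ⊕ Bool) (P : PP E Bool) (x : Pt m)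
    {s : (skip φ P).State} {σ' : List (skip φ P).Sym} {l' : List (Fin m)} {b : Bool}
    (h : (skip φ P).Runs x s σ' l' b) :
    (∀ (q : P.State) (σ : List P.Sym), s = Sum.inl q → σ' = σ.map some →
      ∃ l, P.Runs (subs φ x) q σ l b ∧ l' = kept φ l) ∧
    (∀ (q : P.State) (σ : List P.Sym) (i : E) (nxt : Bool → P.State) (c : Bool),
      s = Sum.inr q → P.act q = .query i nxt → φ i = Sum.inr c → σ' = none :: σ.map some →
      ∃ l, P.Runs (subs φ x) (nxt c) σ l b ∧ l' = kept φ l) := by
  induction h with
  | @out s σ' b h =>
    refine ⟨?_, ?_⟩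
    · rintro q σ rfl rfl
      have h' : nda φ q (P.act q) = .out b := h
      cases hq : P.act q with
      | query i nxt =>
        rw [hq] at h'
        rcases hφ : φ i with ⟨v, c⟩ | c
        · simp only [nda, hφ] at h'; cases h'
        · simp only [nda, hφ] at h'; cases h'
      | push a q' => rw [hq] at h'; cases h'
      | pop nxt => rw [hq] at h'; cases h'
      | out b' =>
        rw [hq] at h'
        have h2 : b' = b := by injection h'
        subst h2
        exact ⟨[], PP.Runs.out hq, rfl⟩
    · rintro q σ i nxt c rfl hq hφ rfl
      have h' : ndb φ q (P.act q) = .out b := h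
      cases h'
  | @query s σ' v nxt' l' b h _ ih =>
    refine ⟨?_, ?_⟩
    · rintro q σ rfl rfl
      have h' : nda φ q (P.act q) = .query v nxt' := h
      cases hq : P.act q with
      | query i nxt =>
        rw [hq] at h'
        rcases hφ : φ i with ⟨v', c⟩ | c
        · simp only [nda, hφ] at h'
          injection h' with h5 h6
          subst h5
          subst h6
          obtain ⟨l, h7, h8⟩ := ih.1 (nxt (decide (x v' = c))) σ rfl rfl
          refine ⟨i :: l, PP.Runs.query hq ?_, ?_⟩
          · have h2 : subs φ x i = decide (x v' = c) := by simp [subs, hφ]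
            rw [h2]; exact h7
          · rw [h8]
            simp [kept, hφ]
        · simp only [nda, hφ] at h'; cases h'
      | push a q' => rw [hq] at h'; cases h'
      | pop nxt => rw [hq] at h'; cases h'
      | out b' => rw [hq] at h'; cases h'
    · rintro q σ i nxt c rfl hq hφ rfl
      have h' : ndb φ q (P.act q) = .query v nxt' := h
      cases h'
  | @push s σ' a' s' l' b h _ ih =>
    refine ⟨?_, ?_⟩
    · rintro q σ rfl rfl
      have h' : nda φ q (P.act q) = .push a' s' := h
      cases hq : P.act q with
      | query i nxt =>
        rw [hq] at h'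
        rcases hφ : φ i with ⟨v', c⟩ | c
        · simp only [nda, hφ] at h'; cases h'
        · simp only [nda, hφ] at h'
          injection h' with h5 h6
          subst h5
          subst h6
          obtain ⟨l, h7, h8⟩ := ih.2 q σ i nxt c rfl hq hφ rfl
          refine ⟨i :: l, PP.Runs.query hq ?_, ?_⟩
          · have h2 : subs φ x i = c := by simp [subs, hφ]
            rw [h2]; exact h7
          · rw [h8]
            simp [kept, hφ]
      | push a q' =>
        rw [hq] at h'
        injection h' with h5 h6
        subst h5
        subst h6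
        obtain ⟨l, h7, h8⟩ := ih.1 q' (a :: σ) rfl rfl
        exact ⟨l, PP.Runs.push hq h7, h8⟩
      | pop nxt => rw [hq] at h'; cases h'
      | out b' => rw [hq] at h'; cases h'
    · rintro q σ i nxt c rfl hq hφ rfl
      have h' : ndb φ q (P.act q) = .push a' s' := h
      cases h'
  | @pop s a' σ' nxt' l' b h _ ih =>
    refine ⟨?_, ?_⟩
    · rintro q σ rfl hσ
      have h' : nda φ q (P.act q) = .pop nxt' := h
      cases hq : P.act q with
      | query i nxt =>
        rw [hq] at h'
        rcases hφ : φ i with ⟨v', c⟩ | c
        · simp only [nda, hφ] at h'; cases h'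
        · simp only [nda, hφ] at h'; cases h'
      | push a q' => rw [hq] at h'; cases h'
      | pop nxt =>
        rw [hq] at h'
        injection h' with h5
        subst h5
        cases σ with
        | nil => simp at hσ
        | cons a σ =>
          rw [List.map_cons] at hσ
          injection hσ with h6 h7
          subst h6
          subst h7
          obtain ⟨l, h7, h8⟩ := ih.1 (nxt a) σ rfl rfl
          exact ⟨l, PP.Runs.pop hq h7, h8⟩
      | out b' => rw [hq] at h'; cases h'
    · rintro q σ i nxt c rfl hq hφ hσ
      have h' : ndb φ q (P.act q) = .pop nxt' := h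
      rw [hq] at h'
      simp only [ndb, hφ] at h'
      injection h' with h5
      subst h5
      injection hσ with h6 h7
      subst h6
      subst h7
      exact ih.1 (nxt c) σ rfl rfl

/-- The computations of the new program are those of the old one. -/
theorem comp_skip (φ : E → (Fin m × Bool) ⊕ Bool) (P : PP E Bool) (x : Pt m)
    (b : Bool) (l' : List (Fin m)) : (skip φ P).Comp x l' b ↔
      ∃ l, P.Comp (subs φ x) l b ∧ l' = kept φ l := by
  constructor
  · intro h
    exact (skip_of φ P x h).1 P.start [] rfl rfl
  · rintro ⟨l, h, rfl⟩
    exact skip_to φ P x h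

theorem skip_card (φ : E → (Fin m × Bool) ⊕ Bool) (P : PP E Bool) :
    Fintype.card (skip φ P).State = 2 * Fintype.card P.State := by
  show Fintype.card (P.State ⊕ P.State) = _
  rw [Fintype.card_sum]
  omega

end Pool.Agent.TH706.PC
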